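import Mathlib

namespace Pool.Agent.H.MP_b374f8_co

/-- `π` avoids the vincular pattern `23-1-4`: no positions `i`, `i+1 < j < l` with
`π j < π i < π (i+1) < π l`. -/
def Avoids {n : ℕ} (π : Equiv.Perm (Fin n)) : Prop :=
  ¬ ∃ i i' j l : Fin n, i'.val = i.val + 1 ∧ i' < j ∧ j < l ∧
    π j < π i ∧ π i < π i' ∧ π i' < π l

/-- Labels of the children of a vertex labelled `k`: one `1`, `i` copies of `i` for
`2 ≤ i ≤ k`, and one `k + 1`. -/
def children (k : ℕ) : List ℕ :=
  1 :: ((List.range' 2 (k - 1)).flatMap fun i => List.replicate i i) ++ [k + 1]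

/-- `level m` lists the labels of the vertices at level `m + 1` of the generating tree. -/
def level : ℕ → List ℕ
  | 0 => [1]
  | m + 1 => (level m).flatMap children

/-- The powered Catalan number `p n` = number of vertices at level `n` (for `n ≥ 1`). -/
def p (n : ℕ) : ℕ := (level (n - 1)).length

/-- `c n k` = number of vertices at level `n` with label `k` (for `n ≥ 1`). -/
def c (n k : ℕ) : ℕ := (level (n - 1)).count k

end Pool.Agent.H.MP_b374f8_co
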