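import Pool.Agent.H.MP_b374f8_co.Defs
import Pool.Agent.H.MP_80f2b6_co.Main

namespace Pool.Agent.H.MP_b374f8_co
open Pool.Agent.H.MP_80f2b6_co Finset

lemma level_pos (m : ℕ) : ∀ x ∈ level m, 1 ≤ x := by
  cases m with
  | zero => simp [level]
  | succ m =>
    intro x hx
    simp only [level, children, List.mem_flatMap, List.mem_append, List.mem_cons,
      List.mem_replicate, List.not_mem_nil, or_false] at hx
    obtain ⟨a, -, (rfl | ⟨i, -, h, rfl⟩) | rfl⟩ := hx <;> omega

lemma sum_children (g : ℕ → ℚ) (k : ℕ) : ((children (k + 1)).map g).sum =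
    g (k + 1 + 1) + ∑ r ∈ range (k + 1), ((r : ℚ) + 1) * g (r + 1) := by
  have : ∀ k, (((List.range' 2 k).flatMap fun i => List.replicate i i).map g).sum =
      ∑ r ∈ range k, ((r : ℚ) + 2) * g (r + 2) := by
    intro k
    induction k with
    | zero => simp
    | succ k ih =>
      rw [List.range'_concat, List.flatMap_append, List.map_append, List.sum_append, ih,
        sum_range_succ]
      simp [add_comm]
  rw [children, List.map_append, List.sum_append, List.map_cons, List.sum_cons,
    Nat.add_sub_cancel, this, sum_range_succ']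
  simp only [List.map_cons, List.map_nil, List.sum_cons, List.sum_nil, Nat.cast_add, Nat.cast_one,
    add_assoc, one_add_one_eq_two]
  simp
  ring

lemma sum_level (m : ℕ) : ∀ g : ℕ → ℚ,
    ((level m).map g).sum = V (m + 1) (PowerSeries.mk g) := by
  induction m with
  | zero => intro g; simp [level, V, cc, sum_range_succ]
  | succ m ih =>
    intro g
    rw [V_mk, ← ih, level, List.map_flatMap, sum_fm]
    congr 1
    refine List.map_congr_left fun x hx => ?_
    obtain ⟨k, rfl⟩ : ∃ k, x = k + 1 := ⟨x - 1, by have := level_pos m x hx; omega⟩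
    exact sum_children g k

lemma count_cast (l : List ℕ) (k : ℕ) :
    (l.count k : ℚ) = (l.map fun j => if j = k then (1 : ℚ) else 0).sum := by
  induction l with
  | nil => simp
  | cons x l ih => by_cases h : x = k <;> simp [List.count_cons, h, ← ih, add_comm]

theorem total (n : ℕ) (hn : 1 ≤ n) : Nat.card {π : Equiv.Perm (Fin n) // Avoids π} = p n := by
  obtain ⟨n, rfl⟩ : ∃ m, n = m + 1 := ⟨n - 1, by omega⟩
  have h := (perm_total n).trans (sum_level n fun _ => 1).symm
  have h2 : (((level n).map fun _ => (1 : ℚ)).sum) = (p (n + 1) : ℚ) := by simp [p]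
  exact_mod_cast h.trans h2

theorem refined (n : ℕ) (hn : 1 ≤ n) (k : ℕ) : Nat.card {π : Equiv.Perm (Fin n) // Avoids π ∧
    Nat.card {i : Fin n // ∀ j, i < j → π i < π j} = k} = c n k := by
  obtain ⟨n, rfl⟩ : ∃ m, n = m + 1 := ⟨n - 1, by omega⟩
  have h := (perm_card n k).trans (sum_level n _).symm
  rw [← count_cast] at h
  exact_mod_cast h

end Pool.Agent.H.MP_b374f8_co
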